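import Pool.Agent.H13.LN.Targets

/-!
# (CUB): functions on a cube (helper82)
-/

set_option autoImplicit false

open Finset

namespace Pool.Agent.H82.LNT

open Pool.Agent.H59.LIN Pool.Agent.H13.LN

theorem mobius {α R : Type} [DecidableEq α] [CommRing R] (ε : Finset α) :
    ∀ h : Finset α → R,
      ∑ δ ∈ ε.powerset, ∑ η ∈ δ.powerset, (-1) ^ (δ.card - η.card) * h η = h ε := by
  induction ε using Finset.induction_on with
  | empty =>
    intro h
    simp
  | insert a ε ha ih =>
    intro h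
    rw [Finset.sum_powerset_insert ha]
    have h1 : ∑ t ∈ ε.powerset, ∑ η ∈ (insert a t).powerset,
        (-1) ^ ((insert a t).card - η.card) * h η =
        -(∑ t ∈ ε.powerset, ∑ η ∈ t.powerset, (-1) ^ (t.card - η.card) * h η) +
        ∑ t ∈ ε.powerset, ∑ η ∈ t.powerset, (-1) ^ (t.card - η.card) * h (insert a η) := by
      rw [← Finset.sum_neg_distrib, ← Finset.sum_add_distrib]
      refine Finset.sum_congr rfl fun t ht => ?_
      have hat : a ∉ t := fun h => ha (Finset.mem_powerset.1 ht h)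
      rw [Finset.sum_powerset_insert hat, ← Finset.sum_neg_distrib]
      refine congrArg₂ (· + ·) (Finset.sum_congr rfl fun η hη => ?_)
        (Finset.sum_congr rfl fun η hη => ?_)
      · have h2 := Finset.card_le_card (Finset.mem_powerset.1 hη)
        rw [Finset.card_insert_of_notMem hat, Nat.sub_add_comm h2, pow_succ]
        ring
      · have haη : a ∉ η := fun h => hat (Finset.mem_powerset.1 hη h)
        rw [Finset.card_insert_of_notMem hat, Finset.card_insert_of_notMem haη,
          Nat.add_sub_add_right]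
    rw [h1, ih h, ih (fun η => h (insert a η))]
    ring

theorem alt {m : ℕ} {R : Type} [CommRing R] (η : Finset (Fin m)) (h : η.card < m) :
    ∑ ε : Finset (Fin m), (-1 : R) ^ (m - ε.card) * (if η ⊆ ε then 1 else 0) = 0 := by
  have h1 : ∑ ε : Finset (Fin m), (-1 : R) ^ (m - ε.card) * (if η ⊆ ε then 1 else 0) =
      ∑ ε : Finset (Fin m), (-1 : R) ^ ε.card * (if ε ⊆ ηᶜ then 1 else 0) := by
    refine Finset.sum_nbij' (fun ε => εᶜ) (fun ε => εᶜ) (fun _ _ => Finset.mem_univ _)
      (fun _ _ => Finset.mem_univ _) (fun _ _ => compl_compl _) (fun _ _ => compl_compl _) ?_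
    intro ε _
    rw [Finset.card_compl, Fintype.card_fin]
    have h2 : εᶜ ⊆ ηᶜ ↔ η ⊆ ε := Finset.compl_subset_compl
    simp only [h2]
  rw [h1]
  have h2 : ∑ ε : Finset (Fin m), (-1 : R) ^ ε.card * (if ε ⊆ ηᶜ then 1 else 0) =
      ∑ ε ∈ (ηᶜ).powerset, (-1 : R) ^ ε.card := by
    rw [← Finset.sum_filter_add_sum_filter_not univ (fun ε : Finset (Fin m) => ε ⊆ ηᶜ)]
    rw [Finset.sum_eq_zero (s := univ.filter fun ε : Finset (Fin m) => ¬ ε ⊆ ηᶜ), add_zero]
    · refine Finset.sum_congr ?_ ?_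
      · ext ε
        simp
      · intro ε hε
        rw [if_pos (Finset.mem_powerset.1 hε), mul_one]
    · intro ε hε
      rw [if_neg (Finset.mem_filter.1 hε).2, mul_zero]
  rw [h2]
  have h3 : (ηᶜ).Nonempty := by
    rw [← Finset.card_pos, Finset.card_compl, Fintype.card_fin]
    omega
  have h4 := Finset.sum_powerset_neg_one_pow_card_of_nonempty h3
  have h5 := congrArg (Int.cast : ℤ → R) h4
  push_cast at h5
  exact h5

theorem pf_CUB (hMAH : T_MAH) : T_CUB := by
  classical
  intro p a e hp s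
  obtain ⟨J, γ, hJ⟩ := hMAH p a hp s
  refine ⟨J * e, fun m hm h hh => ?_⟩
  have hne : NeZero (p ^ a) := ⟨(pow_pos hp.pos a).ne'⟩
  set c : Finset (Fin m) → ZMod (p ^ a) := fun δ =>
    ∑ η ∈ δ.powerset, (-1) ^ (δ.card - η.card) * h η with hc
  set C : Finset (Fin m) → ℕ := fun δ => (c δ).val with hC
  have hC0 : ∀ δ, e < δ.card → C δ = 0 := by
    intro δ hδ
    have h1 : c δ = 0 := hh δ hδ
    rw [hC]
    dsimp only
    rw [h1, ZMod.val_zero]
  have hN : ∀ ε, ((∑ δ ∈ ε.powerset, C δ : ℕ) : ZMod (p ^ a)) = h ε := by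
    intro ε
    rw [Nat.cast_sum, ← mobius ε h]
    refine Finset.sum_congr rfl fun δ _ => ?_
    rw [hC]
    dsimp only
    rw [ZMod.natCast_val, ZMod.cast_id]
  set T : Finset (Σ _ : Finset (Fin m), ℕ) := univ.sigma (fun δ => range (C δ)) with hT
  have hTm : ∀ x ∈ T, x.1.card ≤ e := by
    intro x hx
    by_contra h1
    have h2 := (Finset.mem_sigma.1 hx).2
    rw [hC0 x.1 (by omega), Finset.range_zero] at h2
    exact absurd h2 (Finset.notMem_empty _)
  have hP : ∀ ε : Finset (Fin m), (T.filter (fun x => x.1 ⊆ ε)).card =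
      ∑ δ ∈ ε.powerset, C δ := by
    intro ε
    have h1 : T.filter (fun x => x.1 ⊆ ε) = ε.powerset.sigma (fun δ => range (C δ)) := by
      ext x
      simp only [hT, Finset.mem_filter, Finset.mem_sigma, Finset.mem_univ, true_and,
        Finset.mem_powerset]
      tauto
    rw [h1, Finset.card_sigma]
    simp
  have hch : ∀ (ε : Finset (Fin m)) (j : ℕ), ((∑ δ ∈ ε.powerset, C δ).choose j : ℕ) =
      ∑ S ∈ T.powersetCard j, if S.sup Sigma.fst ⊆ ε then 1 else 0 := by
    intro ε j
    rw [← hP ε, ← Finset.card_powersetCard, Finset.card_eq_sum_ones, ← Finset.sum_filter]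
    refine Finset.sum_congr ?_ (fun _ _ => rfl)
    ext S
    simp only [Finset.mem_powersetCard, Finset.mem_filter]
    have h1 : S.sup Sigma.fst ⊆ ε ↔ ∀ x ∈ S, x.1 ⊆ ε := Finset.sup_le_iff
    rw [h1]
    constructor
    · rintro ⟨h2, h3⟩
      exact ⟨⟨fun x hx => (Finset.mem_filter.1 (h2 hx)).1, h3⟩,
        fun x hx => (Finset.mem_filter.1 (h2 hx)).2⟩
    · rintro ⟨⟨h2, h3⟩, h4⟩
      exact ⟨fun x hx => Finset.mem_filter.2 ⟨h2 hx, h4 x hx⟩, h3⟩
  have hcard : ∀ j, j < J → ∀ S ∈ T.powersetCard j, (S.sup Sigma.fst).card < m := by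
    intro j hj S hS
    obtain ⟨h1, h2⟩ := Finset.mem_powersetCard.1 hS
    have h3 : (S.sup Sigma.fst).card ≤ S.card * e := by
      rw [Finset.sup_eq_biUnion]
      exact Finset.card_biUnion_le_card_mul _ _ _ fun x hx => hTm x (h1 hx)
    calc (S.sup Sigma.fst).card ≤ S.card * e := h3
      _ = j * e := by rw [h2]
      _ ≤ J * e := Nat.mul_le_mul_right _ hj.le
      _ < m := hm
  have hs : ∀ ε, s (h ε) = ∑ j ∈ range J, ∑ S ∈ T.powersetCard j,
      (if S.sup Sigma.fst ⊆ ε then 1 else 0) * γ j := by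
    intro ε
    rw [← hN ε, hJ]
    refine Finset.sum_congr rfl fun j _ => ?_
    rw [hch ε j, ← Finset.sum_mul]
    push_cast
    rfl
  calc ∑ ε : Finset (Fin m), (-1) ^ (m - ε.card) * s (h ε)
      = ∑ ε : Finset (Fin m), ∑ j ∈ range J, ∑ S ∈ T.powersetCard j,
        ((-1) ^ (m - ε.card) * (if S.sup Sigma.fst ⊆ ε then 1 else 0)) * γ j := by
        refine Finset.sum_congr rfl fun ε _ => ?_
        rw [hs ε, Finset.mul_sum]
        refine Finset.sum_congr rfl fun j _ => ?_
        rw [Finset.mul_sum]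
        refine Finset.sum_congr rfl fun S _ => ?_
        rw [mul_assoc]
    _ = ∑ j ∈ range J, ∑ S ∈ T.powersetCard j, ∑ ε : Finset (Fin m),
        ((-1) ^ (m - ε.card) * (if S.sup Sigma.fst ⊆ ε then 1 else 0)) * γ j := by
        rw [Finset.sum_comm]
        refine Finset.sum_congr rfl fun j _ => ?_
        rw [Finset.sum_comm]
    _ = 0 := by
        refine Finset.sum_eq_zero fun j hj => Finset.sum_eq_zero fun S hS => ?_
        rw [← Finset.sum_mul, alt _ (hcard j (Finset.mem_range.1 hj) S hS), zero_mul]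

end Pool.Agent.H82.LNT
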